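import Pool.Agent.Lib_helper56.Brachy.Defs
import Pool.Agent.Lib_helper56.Brachy.Main

/-!
# A brachymorphism that is not additive

Negative answer to Q1 of MP_77a645_al, with domain the free ring `ℤ⟨x, y⟩` (`k = ℤ`).

Construction.  Let `K` be the field of fractions of `k[z_i : i ∈ ℤ]`.  The free algebra
`R = k⟨x, y⟩` acts on the sequences `v : ℤ → K` that vanish far to the left by
`(y v)_i = v_{i+1}`, `(x v)_i = z_i v_{i+1}`.  Every `r ≠ 0` is bijective there and `r⁻¹` moves
supports `deg r` places to the right.  Write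
`r = r(0) + x L'(r) + y L(r) = r(0) + C'(r) x + C(r) y` and put `N(0) = 0`,
`N(r) = (L(r) r⁻¹ C(r) e_{-1})_0` for `r ≠ 0`.  From `L(rs) = r(0) L(s) + L(r) s` and
`C(rs) = r C(s) + s(0) C(r)` one gets `N(rs) = r(0) N(s) + s(0) N(r)` and `N(1 + r) = N(r)`,
because the remaining terms vanish for support reasons.  So `f(r) = r(0) + ε N(r)` is a
brachymorphism to the dual numbers over `K`.  But `N(x) = 0`, `N(y) = 1`,
`N(x + y) = 1 / (1 + z_{-1})`.
-/

set_option autoImplicit false

namespace Pool.Agent.Results.MP_77a645_al.NonAdditive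

open Pool.Agent.Brachy56

universe u

/-- For every commutative domain `k` there are a field `K` and a brachymorphism from the free
algebra `k⟨x, y⟩` to the ring of dual numbers over `K` that is not additive on `(x, y)`. -/
theorem result (k : Type u) [CommRing k] [IsDomain k] :
    ∃ (K : Type u) (_ : Field K) (f : FreeAlgebra k (Fin 2) → DualNumber K),
      IsBrachymorphism f ∧
      f (FreeAlgebra.ι k 0 + FreeAlgebra.ι k 1) ≠
        f (FreeAlgebra.ι k 0) + f (FreeAlgebra.ι k 1) :=
  ⟨K k, inferInstance, F, ⟨F_one_add, F_mul⟩, F_not_add⟩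

end Pool.Agent.Results.MP_77a645_al.NonAdditive
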